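import Mathlib
import Pool.Agent.H79.DPDefs
import Pool.Agent.H79.DP1

set_option autoImplicit false

namespace Pool.Agent.Results.MP_c3bf79_al.TwoEnv

open Pool.Agent.H79.DP

/-- generators in degrees `0, 4`, relations `x f = 0` and `x e = u x^[5] f` -/
def ph (u : ℤ) : Hom (free classical ![1, 5]) (free classical ![0, 4]) :=
  matHom classical ![0, 4] ![1, 5] ![![1, -u], ![0, 1]] (by
    intro a b
    fin_cases a <;> fin_cases b <;> simp)

theorem ph0 (u j : ℤ) (v : (free classical ![1, 5]).X j) :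
    co classical _ j 0 ((ph u).f j v) = classical.c (j - 1).toNat 1 * co classical _ j 0 v -
      u * classical.c (j - 5).toNat 5 * co classical _ j 1 v := by
  rw [ph, co_matHom, Fin.sum_univ_two]
  simp
  ring

theorem ph1 (u j : ℤ) (v : (free classical ![1, 5]).X j) :
    co classical _ j 1 ((ph u).f j v) = classical.c (j - 5).toNat 1 * co classical _ j 1 v := by
  rw [ph, co_matHom, Fin.sum_univ_two]
  simp

theorem cc (n m : ℕ) : classical.c n m = ((n + m).choose n : ℤ) := rfl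

theorem c1 (j : ℤ) (hj : 1 ≤ j) : classical.c (j - 1).toNat 1 = j := by
  change (((j - 1).toNat + 1).choose (j - 1).toNat : ℤ) = j
  rw [Nat.choose_succ_self_right]
  omega

theorem c5 (j : ℤ) (hj : 5 ≤ j) : j ∣ 5 * classical.c (j - 5).toNat 5 := by
  have h := classical.assoc (j - 5).toNat 4 1
  have h1 : classical.c 4 1 = 5 := by simp [classical]
  have h2 := c1 j (by omega)
  rw [show (j - 1).toNat = (j - 5).toNat + 4 by omega] at h2
  rw [h1, h2] at h
  exact ⟨classical.c (j - 5).toNat 4, by linear_combination h⟩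

theorem exists_eps (J : ℕ) : ∃ e : ℤ, (5 : ℤ) ∣ e - 1 ∧
    (∀ a : ℕ, 5 ^ a ∣ J.factorial → (5 : ℤ) ^ a ∣ e - 1) ∧
    ∀ q : ℕ, q ∣ J.factorial → Nat.Coprime q 5 → (q : ℤ) ∣ e := by
  obtain ⟨a, q, h1, h2⟩ := Nat.exists_eq_pow_mul_and_not_dvd J.factorial_ne_zero 5 (by norm_num)
  have h3 : Nat.Coprime q 5 := ((Nat.Prime.coprime_iff_not_dvd (by norm_num)).2 h1).symm
  have h4 : IsCoprime (q : ℤ) ((5 : ℤ) ^ (a + 1)) := by
    have := Nat.isCoprime_iff_coprime.2 (h3.pow_right (a + 1))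
    exact_mod_cast this
  obtain ⟨x, y, h5⟩ := h4
  have h6 : (5 : ℤ) ^ (a + 1) ∣ x * q - 1 := ⟨-y, by linear_combination h5⟩
  refine ⟨x * q, (dvd_pow_self 5 (by omega)).trans h6, fun b hb => ?_, fun q' hq' hc => ?_⟩
  · rw [h2] at hb
    have h7 : 5 ^ b ∣ 5 ^ a := (h3.symm.pow_left b).dvd_of_dvd_mul_right hb
    refine dvd_trans ?_ ((pow_dvd_pow 5 (Nat.le_succ a)).trans h6)
    exact_mod_cast h7
  · rw [h2] at hq'
    exact Dvd.dvd.mul_left (by exact_mod_cast (hc.pow_right a).dvd_of_dvd_mul_left hq') x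

theorem exists_lam : ∃ l : ℤ → ℤ, (∀ j, (5 : ℤ) ∣ l j - 2) ∧ (∀ j, 1 ≤ j → IsCoprime (l j) j) ∧
    ∀ i j, 1 ≤ i → i ≤ j → i ∣ l j - l i := by
  choose e h1 h2 h3 using exists_eps
  have key : ∀ i : ℤ, 1 ≤ i → ∃ a q : ℕ, Nat.Coprime q 5 ∧ i = 5 ^ a * q ∧
      ∀ j, i ≤ j → (5 : ℤ) ^ a ∣ e j.toNat - 1 ∧ (q : ℤ) ∣ e j.toNat := by
    intro i hi
    obtain ⟨a, q, h4, h5⟩ :=
      Nat.exists_eq_pow_mul_and_not_dvd (n := i.toNat) (by omega) 5 (by norm_num)
    have h6 : Nat.Coprime q 5 := ((Nat.Prime.coprime_iff_not_dvd (by norm_num)).2 h4).symm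
    refine ⟨a, q, h6, by
      have : (i.toNat : ℤ) = 5 ^ a * q := by exact_mod_cast h5
      omega, fun j hj => ?_⟩
    have h7 : i.toNat ∣ j.toNat.factorial := Nat.dvd_factorial (by omega) (by omega)
    rw [h5] at h7
    exact ⟨h2 _ a (dvd_of_mul_right_dvd h7), h3 _ q (dvd_of_mul_left_dvd h7) h6⟩
  refine ⟨fun j => 1 + e j.toNat, fun j => ?_, fun j hj => ?_, fun i j hi hij => ?_⟩
  · have := h1 j.toNat
    change 5 ∣ 1 + e j.toNat - 2
    omega
  · obtain ⟨a, q, -, h5, h6⟩ := key j hj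
    obtain ⟨z, hz⟩ := (h6 j le_rfl).2
    obtain ⟨y, hy⟩ := h1 j.toNat
    change IsCoprime (1 + e j.toNat) j
    generalize e j.toNat = t at hz hy
    rw [h5]
    refine IsCoprime.mul_right (IsCoprime.pow_right ⟨3, -1 - 3 * y, ?_⟩) ⟨1, -z, ?_⟩
    · linear_combination 3 * hy
    · linear_combination hz
  · obtain ⟨a, q, h4, h5, h6⟩ := key i hi
    have h7 : IsCoprime ((5 : ℤ) ^ a) q := by
      have := Nat.isCoprime_iff_coprime.2 (h4.symm.pow_left a)
      exact_mod_cast this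
    have h8 := h7.mul_dvd (z := (1 + e j.toNat) - (1 + e i.toNat))
      (by convert dvd_sub (h6 j hij).1 (h6 i le_rfl).1 using 1; ring)
      (by convert dvd_sub (h6 j hij).2 (h6 i le_rfl).2 using 1; ring)
    rwa [← h5] at h8

/-- multiply the first coordinate -/
def dg (l j : ℤ) : LM (free classical ![0, 4]) (free classical ![0, 4]) j where
  toFun v := mkv classical _ j ![l * co classical _ j 0 v, co classical _ j 1 v] (by
    intro a ha
    fin_cases a
    · simp [co_zero v 0 ha]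
    · simp [co_zero v 1 ha])
  map_add' v w := free_ext fun a => by fin_cases a <;> simp [mul_add]
  map_smul' c v := free_ext fun a => by fin_cases a <;> simp [mul_left_comm]

theorem dg0 (l j : ℤ) (v : (free classical ![0, 4]).X j) :
    co classical _ j 0 (dg l j v) = l * co classical _ j 0 v := rfl

theorem dg1 (l j : ℤ) (v : (free classical ![0, 4]).X j) :
    co classical _ j 1 (dg l j v) = co classical _ j 1 v := rfl

theorem zero_iff (u j : ℤ) (hj : 5 ≤ j) (v : (free classical ![0, 4]).X j) :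
    cmk (ph u) j v = 0 ↔ ∃ b, co classical _ j 1 v = classical.c (j - 5).toNat 1 * b ∧
      j ∣ co classical _ j 0 v + u * classical.c (j - 5).toNat 5 * b := by
  rw [cmk_eq_zero]
  constructor
  · rintro ⟨y, rfl⟩
    refine ⟨_, ph1 u j y, co classical _ j 0 y, ?_⟩
    rw [ph0, c1 j (by omega)]
    ring
  · rintro ⟨b, h1, a, h2⟩
    refine ⟨mkv classical _ j ![a, b] (by
      intro c hc
      fin_cases c <;> simp at hc <;> omega), free_ext fun c => ?_⟩
    fin_cases c
    · change co classical _ j 0 _ = co classical _ j 0 v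
      rw [ph0, c1 j (by omega), co_mkv, co_mkv]
      simp only [Matrix.cons_val_zero, Matrix.cons_val_one]
      linear_combination -h2
    · change co classical _ j 1 _ = co classical _ j 1 v
      rw [ph1, co_mkv, h1]
      simp

theorem tail_iso : TailIso 5 (coker (ph 1)) (coker (ph 2)) := by
  obtain ⟨l, h1, h2, h3⟩ := exists_lam
  have hz : ∀ j, 5 ≤ j → ∀ v, cmk (ph 2) j (dg (l j) j v) = 0 ↔ cmk (ph 1) j v = 0 := by
    intro j hj v
    rw [zero_iff 2 j hj, zero_iff 1 j hj, dg0, dg1]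
    refine exists_congr fun b => and_congr_right fun _ => ?_
    obtain ⟨y, hy⟩ := h1 j
    obtain ⟨z, hz⟩ := c5 j hj
    refine Iff.trans ?_ ⟨(h2 j (by omega)).symm.dvd_of_dvd_mul_left, fun h => h.mul_left _⟩
    refine dvd_iff_dvd_of_dvd_sub ⟨-(y * z * b), ?_⟩
    linear_combination (-(classical.c (j - 5).toNat 5 * b)) * hy - y * b * hz
  let g : ∀ j, LM (coker (ph 1)) (coker (ph 2)) j := fun j =>
    if h : 5 ≤ j then clift (ph 1) j (cmk (ph 2) j ∘ₗ dg (l j) j) (fun y =>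
      (hz j h _).2 ((cmk_eq_zero _ _ _).2 ⟨y, rfl⟩)) else 0
  have hg : ∀ j, 5 ≤ j → ∀ v, g j (cmk (ph 1) j v) = cmk (ph 2) j (dg (l j) j v) := by
    intro j hj v
    simp only [g, dif_pos hj, clift_cmk, LinearMap.comp_apply]
  refine ⟨g, fun j hj => ⟨?_, fun y => ?_⟩, fun m i j h hi x => ?_⟩
  · rw [injective_iff_map_eq_zero]
    intro x hx
    obtain ⟨v, rfl⟩ := cmk_surj _ _ x
    rwa [hg j hj, hz j hj] at hx
  · obtain ⟨v, rfl⟩ := cmk_surj _ _ y
    obtain ⟨a, b, hab⟩ := h2 j (by omega)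
    refine ⟨cmk (ph 1) j (dg a j v), ?_⟩
    rw [hg j hj, ← sub_eq_zero, ← map_sub, zero_iff 2 j hj]
    refine ⟨0, by simp [dg1], -(b * co classical _ j 0 v), ?_⟩
    rw [map_sub, dg0, dg0]
    linear_combination co classical _ j 0 v * hab
  · obtain ⟨v, rfl⟩ := cmk_surj _ _ x
    rw [cmk_T, hg j (by omega), hg i hi]
    have e1 : cmk (ph 2) i (dg (l i) i v) = cmk (ph 2) i (dg (l j) i v) := by
      rw [← sub_eq_zero, ← map_sub, zero_iff 2 i hi]
      obtain ⟨z, hz⟩ := h3 i j (by omega) (by omega)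
      refine ⟨0, by simp [dg1], -(z * co classical _ i 0 v), ?_⟩
      rw [map_sub, dg0, dg0]
      linear_combination (-co classical _ i 0 v) * hz
    rw [e1, cmk_T]
    congr 1
    refine free_ext fun a => ?_
    fin_cases a
    · change co classical _ j 0 _ = co classical _ j 0 _
      rw [dg0, co_T, co_T, dg0]; ring
    · change co classical _ j 1 _ = co classical _ j 1 _
      rw [dg1, co_T, co_T, dg1]

theorem not_iso : ¬ Iso (coker (ph 1)) (coker (ph 2)) := by
  rintro ⟨ψ, hψ⟩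
  let f0 : (free classical ![0, 4]).X 0 := mkv classical _ 0 ![1, 0] (by
    intro a ha; fin_cases a <;> simp at ha ⊢)
  let e4 : (free classical ![0, 4]).X 4 := mkv classical _ 4 ![0, 1] (by
    intro a ha; fin_cases a <;> simp at ha ⊢)
  obtain ⟨v, hv⟩ := cmk_surj (ph 2) 0 (ψ.f 0 (cmk (ph 1) 0 f0))
  obtain ⟨w, hw⟩ := cmk_surj (ph 2) 4 (ψ.f 4 (cmk (ph 1) 4 e4))
  have hv1 : co classical _ 0 1 v = 0 := co_zero v 1 (by simp)
  have r1 : (coker (ph 1)).T 1 4 5 rfl (cmk _ 4 e4) = (coker (ph 1)).T 5 0 5 rfl (cmk _ 0 f0) := by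
    rw [cmk_T, cmk_T, ← sub_eq_zero, ← map_sub, zero_iff 1 5 le_rfl]
    refine ⟨1, ?_, ?_⟩ <;> simp [co_T, f0, e4, cc]
  have r2 := congrArg (ψ.f 5) r1
  rw [ψ.comm, ψ.comm, ← hv, ← hw, cmk_T, cmk_T, ← sub_eq_zero, ← map_sub,
    zero_iff 2 5 le_rfl] at r2
  obtain ⟨b, r3, r4⟩ := r2
  simp [co_T, cc, hv1] at r3 r4
  have s0 : IsUnit (co classical _ 0 0 v) := by
    obtain ⟨x, hx⟩ := (hψ 0).2 (cmk _ 0 f0)
    obtain ⟨y, rfl⟩ := cmk_surj _ _ x
    have e1 : y = co classical _ 0 0 y • f0 := free_ext fun a => by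
      fin_cases a
      · simp [f0]
      · simpa [f0] using co_zero y 1 (by simp)
    rw [e1, map_smul, map_smul, ← hv, ← map_smul, ← sub_eq_zero, ← map_sub, cmk_eq_zero] at hx
    obtain ⟨z, hz⟩ := hx
    have e2 := congrArg (co classical _ 0 0) hz
    rw [ph0, co_zero z 0 (by simp), co_zero z 1 (by simp)] at e2
    simp [f0] at e2
    exact IsUnit.of_mul_eq_one_right (co classical _ 0 0 y) (by linear_combination -e2)
  have s1 : IsUnit (co classical _ 4 1 w) := by
    obtain ⟨x, hx⟩ := (hψ 4).2 (cmk _ 4 e4)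
    obtain ⟨y, rfl⟩ := cmk_surj _ _ x
    have e1 : y = co classical _ 4 0 y • (free classical ![0, 4]).T 4 0 4 rfl f0 +
        co classical _ 4 1 y • e4 := free_ext fun a => by
      fin_cases a <;> simp [f0, e4, co_T, cc]
    have hL : ∀ z, co classical _ 4 1 ((ph 2).f 4 z) = 0 := fun z => by
      rw [ph1, co_zero z 1 (by simp)]; simp
    rw [e1, map_add, map_add, map_smul, map_smul, map_smul, map_smul, ← cmk_T, ψ.comm, ← hv, ← hw,
      cmk_T] at hx
    have e2 := congrArg (clift (ph 2) 4 (co classical _ 4 1) hL) hx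
    rw [map_add, map_smul, map_smul, clift_cmk, clift_cmk, clift_cmk] at e2
    simp [e4, co_T, hv1] at e2
    exact IsUnit.of_mul_eq_one_right (co classical _ 4 1 y) (by linear_combination e2)
  rw [Int.isUnit_iff] at s0 s1
  omega

/-- Two non-isomorphic finitely presented graded modules over the divided power algebra over `ℤ`
with isomorphic truncations. -/
theorem result : ∃ (N N' : GM classical) (n : ℤ),
    FP N ∧ FP N' ∧ TailIso n N N' ∧ ¬ Iso N N' :=
  ⟨coker (ph 1), coker (ph 2), 5, fp_coker _, fp_coker _, tail_iso, not_iso⟩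

end Pool.Agent.Results.MP_c3bf79_al.TwoEnv
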